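import Pool.Agent.R598.CR.Main

set_option autoImplicit false

namespace Pool.Agent.Results.MP_5f5b92_lc.RamseyPairsNotCanonical

open Pool.Agent.W868 Pool.Agent.R598.CR

/-- There is a countable transitive model `M` of ZF with a set `X` for which, in `M`, the canonical
Ramsey statement `CRT(X)` fails and the Ramsey statement `RT²_n(X)` holds for every natural
number `n`. -/
theorem result : ∃ M : Set ZFSet.{0}, M.Countable ∧ IsZF M ∧ ∃ X ∈ M, ¬ CRT M X ∧
    ∀ n : ℕ, RT2 M X n := main

end Pool.Agent.Results.MP_5f5b92_lc.RamseyPairsNotCanonical
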